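import Pool.Agent.Y184.NT.StB
import Pool.Agent.Helper386.D5V.Helper386_FF_Fund

/-! NT-W0 (job 3092, helper929 for helper184): the place of an irreducible polynomial -/

set_option autoImplicit false

open FF Polynomial IsDedekindDomain

namespace Pool.Agent.Y929.NT

/-- the order of a polynomial at a place with a pole of the variable -/
theorem ord_poly {L : Type} [Field L] [Algebra ℂ L] (w : Place ℂ (RatFunc L))
    (hw : ∀ l : L, l ≠ 0 → w.ord (algebraMap L (RatFunc L) l) = 0)
    (hX : w.ord (algebraMap L[X] (RatFunc L) X) < 0) (n : ℕ) : ∀ A : L[X], A ≠ 0 → A.natDegree = n →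
      w.ord (algebraMap L[X] (RatFunc L) A) = n * w.ord (algebraMap L[X] (RatFunc L) X) := by
  have hinj : ∀ A : L[X], A ≠ 0 → algebraMap L[X] (RatFunc L) A ≠ 0 := fun A hA => by
    simpa using hA
  have hC : ∀ l : L, l ≠ 0 → w.ord (algebraMap L[X] (RatFunc L) (C l)) = 0 := by
    intro l hl
    have h1 : algebraMap L[X] (RatFunc L) (C l) = algebraMap L (RatFunc L) l := by
      rw [IsScalarTower.algebraMap_apply L L[X] (RatFunc L), Polynomial.algebraMap_eq]
    rw [h1]
    exact hw l hl
  have hmon : ∀ (l : L) (n : ℕ), l ≠ 0 → w.ord (algebraMap L[X] (RatFunc L) (C l * X ^ n)) =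
      n * w.ord (algebraMap L[X] (RatFunc L) X) := by
    intro l n hl
    rw [map_mul, w.ord_mul (hinj _ (C_ne_zero.2 hl)) (hinj _ (pow_ne_zero _ X_ne_zero)), hC l hl,
      map_pow, w.ord_pow, zero_add]
  induction n using Nat.strong_induction_on with
  | _ n ih =>
    intro A hA hn
    have hl : A.leadingCoeff ≠ 0 := leadingCoeff_ne_zero.2 hA
    have hsplit := A.eraseLead_add_C_mul_X_pow
    by_cases h0 : A.eraseLead = 0
    · rw [h0, zero_add] at hsplit
      rw [← hsplit, hmon _ _ hl, hn]
    · have hlt : A.eraseLead.natDegree < n := by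
        rcases A.eraseLead_natDegree_lt_or_eraseLead_eq_zero with h | h
        · rw [← hn]; exact h
        · exact absurd h h0
      have h1 := ih _ hlt A.eraseLead h0 rfl
      have h2 := hmon A.leadingCoeff A.natDegree hl
      rw [hn] at h2 hsplit
      have h3 : w.ord (algebraMap L[X] (RatFunc L) (C A.leadingCoeff * X ^ n)) <
          w.ord (algebraMap L[X] (RatFunc L) A.eraseLead) := by
        rw [h1, h2]
        have h4 : (A.eraseLead.natDegree : ℤ) < n := by exact_mod_cast hlt
        nlinarith
      have h5 := w.ord_add_eq (hinj _ (mul_ne_zero (C_ne_zero.2 hl) (pow_ne_zero _ X_ne_zero)))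
        (hinj _ h0) h3
      rw [← map_add, add_comm, hsplit] at h5
      rw [h5.2, h2]

theorem t_W0 : Pool.Agent.Y184.NT.StW0 := by
  intro L _ _ g hg
  have hg0 : g ≠ 0 := hg.ne_zero
  have hprime : (Ideal.span {g}).IsPrime := (Ideal.span_singleton_prime hg0).2 hg.prime
  have hbot : Ideal.span {g} ≠ ⊥ := by simpa [Ideal.span_singleton_eq_bot] using hg0
  let P0 : HeightOneSpectrum L[X] := ⟨Ideal.span {g}, hprime, hbot⟩
  have hinj : ∀ A : L[X], A ≠ 0 → algebraMap L[X] (RatFunc L) A ≠ 0 := fun A hA => by
    simpa using hA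
  refine ⟨placeOf (k := ℂ) (L := RatFunc L) P0, fun A => placeOf_reg P0 A, ?_, ?_, ?_, ?_⟩
  · intro A hA hgA
    rw [placeOf_ord]
    have h1 : A ∉ P0.asIdeal := by
      intro h
      exact hgA (Ideal.mem_span_singleton.1 h)
    rw [(HeightOneSpectrum.valuation_eq_one_iff_notMem P0).2 h1]
    simp
  · rw [placeOf_ord, HeightOneSpectrum.valuation_of_algebraMap,
      HeightOneSpectrum.intValuation_singleton P0 hg0 rfl]
    simp
  · intro f hf
    by_cases hf0 : f = 0
    · refine ⟨0, 1, ?_, by rw [hf0, map_zero, zero_mul]⟩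
      intro h
      exact hg.not_isUnit (isUnit_of_dvd_one h)
    · rw [Place.reg_iff _ hf0, placeOf_nonneg P0 hf0] at hf
      obtain ⟨n, d, h⟩ := P0.exists_primeCompl_mul_eq_of_integer f hf
      refine ⟨n, d, ?_, h⟩
      intro hd
      exact d.2 (Ideal.mem_span_singleton.2 hd)
  · intro w hw hwg
    have hdeg : 0 < g.natDegree := by
      rw [natDegree_pos_iff_degree_pos]
      exact degree_pos_of_irreducible hg
    have hX : w.Reg (algebraMap L[X] (RatFunc L) X) := by
      right
      by_contra hcon
      push Not at hcon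
      have h1 := ord_poly w hw hcon g.natDegree g hg0 rfl
      have h2 : (0 : ℤ) < g.natDegree := by exact_mod_cast hdeg
      nlinarith
    have hreg : ∀ A : L[X], w.Reg (algebraMap L[X] (RatFunc L) A) := by
      intro A
      have hC : ∀ l : L, w.Reg (algebraMap L[X] (RatFunc L) (C l)) := by
        intro l
        by_cases hl : l = 0
        · left
          rw [hl, map_zero, map_zero]
        · right
          have h1 : algebraMap L[X] (RatFunc L) (C l) = algebraMap L (RatFunc L) l := by
            rw [IsScalarTower.algebraMap_apply L L[X] (RatFunc L), Polynomial.algebraMap_eq]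
          rw [h1, hw l hl]
      induction A using Polynomial.induction_on with
      | C l => exact hC l
      | add p q hp hq =>
        rw [map_add]
        exact w.reg_add hp hq
      | monomial n l h =>
        rw [pow_succ, ← mul_assoc, map_mul]
        exact w.reg_mul h hX
    obtain ⟨P, hP⟩ := exists_placeOf_eq w hreg
    have hgP : g ∈ P.asIdeal := by
      rw [← placeOf_red_eq_zero (k := ℂ) (L := RatFunc L) P, hP, Place.red_eq_zero_iff _ (hreg g)]
      right
      omega
    have hle : P0.asIdeal ≤ P.asIdeal := by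
      show Ideal.span {g} ≤ P.asIdeal
      rw [Ideal.span_singleton_le_iff_mem]
      exact hgP
    have heq : P0.asIdeal = P.asIdeal :=
      P0.isMaximal.eq_of_le P.isPrime.ne_top hle
    have hPP : P0 = P := HeightOneSpectrum.ext heq
    rw [hPP]
    exact hP.symm

end Pool.Agent.Y929.NT
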